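import Pool.Agent.Helper56_Alt.Main

/-!
The free alternative ring on six or more generators has an element of additive order three.

Write `FreeAlt Φ X` for the free alternative algebra `Alt_Φ[X]`: the free nonassociative algebra
modulo the ideal generated by all `(f, f, g)` and `(g, f, f)`.  We find a multilinear element of
degree six, `t`, with `3 t` in the ideal, and a functional to `Φ / 3 Φ` which vanishes on the ideal
and takes `t` to a unit.  The functional comes from a `Z/2`-graded quotient of dimension 19 of the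
free alternative superalgebra on three odd generators over the field with three elements.
-/

namespace Pool.Agent.Results.MP_2692c1_al.ThreeTorsion

open Pool.Agent.Helper56Alt

universe u v

theorem result :
    ((∃ f : FreeAlt ℤ ℕ, f ≠ 0 ∧ (3 : ℤ) • f = 0) ∧ ¬ Module.Free ℤ (FreeAlt ℤ ℕ)) ∧
    ∀ (Φ : Type u) [CommRing Φ] (X : Type v), Nonempty (Fin 6 ↪ X) →
      (¬ IsUnit (3 : Φ) → ∃ f : FreeAlt Φ X, f ≠ 0 ∧ (3 : Φ) • f = 0) ∧
      (Module.Flat Φ (FreeAlt Φ X) → ∃ r : Φ, 9 * r = 3) := by
  refine ⟨⟨exists_torsion ℤ ℕ Fin.valEmbedding ?_, ?_⟩, ?_⟩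
  · intro h
    rw [Int.isUnit_iff] at h
    omega
  · intro h
    obtain ⟨r, hr⟩ := flat_imp' ℤ ℕ Fin.valEmbedding inferInstance
    omega
  · rintro Φ _ X ⟨ι⟩
    exact ⟨exists_torsion Φ X ι, flat_imp' Φ X ι⟩

end Pool.Agent.Results.MP_2692c1_al.ThreeTorsion
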